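import Mathlib
import Pool.Agent.H510R2.Maier.MB10

set_option autoImplicit false

open Filter Topology

namespace Pool.Agent.Results.MP_f9960f_nt.DenseBlocks

open Pool.Agent.H510R2.Maier

/-- The number of primes in `(n, n + c (log n)²]`. -/
noncomputable def primesIn (c : ℝ) (n : ℕ) : ℕ :=
  Nat.primeCounting (n + ⌊c * (Real.log n) ^ 2⌋₊) - Nat.primeCounting n

/-- `p_n` with `p_0 = 2`. -/
noncomputable def p (n : ℕ) : ℕ := Nat.nth Nat.Prime n

theorem primesIn_eq (c : ℝ) (n : ℕ) : (primesIn c n : ℝ) = cnt n ⌊c * (Real.log n) ^ 2⌋₊ := by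
  unfold primesIn
  rw [Nat.cast_sub (Nat.monotone_primeCounting (Nat.le_add_right _ _)), cnt_pi]

/-- Windows of length `c (log n)²` with more than their share of primes: for `κ < 1.07 c` and `η > 0`,
for all large `x` at least `x ^ (1 - η)` of the integers `1 ≤ n ≤ x` have at least `κ log n` primes in
`(n, n + c (log n)²]`; hence, for infinitely many `n`, the block of the `1 + ⌊κ log p_n⌋` gaps that
follow `p_n` has length less than `c (log p_n)²`. -/
theorem result (κ c : ℝ) (hκ : 0 < κ) (hc : κ < 1.07 * c) :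
    (∀ η : ℝ, 0 < η → ∀ᶠ x : ℕ in atTop,
      (x : ℝ) ^ (1 - η) ≤ ({n : ℕ | 1 ≤ n ∧ n ≤ x ∧ κ * Real.log n ≤ primesIn c n}.ncard : ℝ)) ∧
    ∃ᶠ n : ℕ in atTop, (p (n + 1 + ⌊κ * Real.log (p n)⌋₊) : ℝ) - p n < c * (Real.log (p n)) ^ 2 := by
  have hc' : κ / 1.07 < c := by
    rw [div_lt_iff₀ (by norm_num)]
    linarith
  refine ⟨fun η hη => ?_, short_blocks κ c hκ hc'⟩
  filter_upwards [G.many_freq κ c η hκ hc' hη] with x hx
  refine hx.trans (le_of_eq ?_)
  classical
  unfold G.NM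
  rw [← Set.ncard_coe_finset]
  congr 2
  ext n
  simp only [Finset.coe_filter, Finset.mem_Icc, Set.mem_ofPred_eq, cntP_prime, primesIn_eq, and_assoc]

end Pool.Agent.Results.MP_f9960f_nt.DenseBlocks
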